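import Mathlib
import Pool.Agent.Q68.MR.Sys

/-!
# MP_a0085b_an, Q2 (positive answer)

For every multiplicative measure preserving system and every `A` of positive measure, the lower
limit of the averages of `μ (T_{n²+n}⁻¹ A ∩ T_{m²}⁻¹ A)` over `n, m ∈ [N]` is positive.

Idea: restricting `m` to multiples of finitely many `q` replaces `1_A ∘ T_{m²}` by
`w ∘ T_{m²} = w`, where `w` is the projection of `1_A` to the functions fixed by all `T_{q²}`. On
this space the `T_n` act by involutions, so that `⟨1_A ∘ T_{n(n+1)}, w⟩ = ⟨w ∘ T_n, w ∘ T_{n+1}⟩`.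
The Cauchy-Schwarz inequality for `w ∘ T_{Lt+x}`, where `x` runs through a finite set in which each
difference of two elements divides both of them, gives a lower bound for the averages.

The definition `IsMultiplicativeSystem` is in `Pool.Agent.Q68.MR.Sys`.
-/

open MeasureTheory Filter Topology

namespace Pool.Agent.Results.MP_a0085b_an.ConsecutiveProducts

open Q68.MR

/-- The average of `μ (T_{n²+n}⁻¹ A ∩ T_{m²}⁻¹ A)` over `n, m ∈ {1, …, N}`. -/
noncomputable def average {X : Type*} [MeasurableSpace X] (μ : Measure X) (T : ℕ → X → X)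
    (A : Set X) (N : ℕ) : ℝ :=
  (∑ n ∈ Finset.Icc 1 N, ∑ m ∈ Finset.Icc 1 N,
    μ.real (T (n ^ 2 + n) ⁻¹' A ∩ T (m ^ 2) ⁻¹' A)) / (N : ℝ) ^ 2

/-- Positive answer to Q2. -/
theorem result {X : Type*} [MeasurableSpace X] (μ : Measure X) [IsProbabilityMeasure μ]
    (T : ℕ → X → X) (hT : IsMultiplicativeSystem μ T) (A : Set X) (hA : MeasurableSet A)
    (h0 : 0 < μ A) : 0 < liminf (average μ T A) atTop := by
  obtain ⟨c, hc, h⟩ := recurrence hT hA h0
  refine lt_of_lt_of_le hc (le_liminf_of_le ?_ h)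
  apply IsBoundedUnder.isCoboundedUnder_ge
  refine isBoundedUnder_of ⟨1, fun N => ?_⟩
  unfold average
  apply div_le_one_of_le₀ _ (by positivity)
  have h1 : ∀ n ∈ Finset.Icc 1 N, ∑ m ∈ Finset.Icc 1 N,
      μ.real (T (n ^ 2 + n) ⁻¹' A ∩ T (m ^ 2) ⁻¹' A) ≤ N := by
    intro n _
    have := Finset.sum_le_card_nsmul (Finset.Icc 1 N)
      (fun m => μ.real (T (n ^ 2 + n) ⁻¹' A ∩ T (m ^ 2) ⁻¹' A)) 1 (fun m _ => measureReal_le_one)
    simpa using this
  have := Finset.sum_le_card_nsmul (Finset.Icc 1 N) _ (N : ℝ) h1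
  rw [Nat.card_Icc, nsmul_eq_mul, Nat.add_sub_cancel] at this
  rw [pow_two]
  exact this

end Pool.Agent.Results.MP_a0085b_an.ConsecutiveProducts
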